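import Mathlib

namespace Q170.GA

open Matrix

/-- the quadratic form `z ↦ zᵀ Q z` -/
def qf {κ : Type*} [Fintype κ] (Q : Matrix κ κ ℝ) (z : κ → ℝ) : ℝ := z ⬝ᵥ (Q *ᵥ z)

/-- the vector `(x, 1)` -/
def hm {n : ℕ} (x : Fin n → ℝ) : Fin (n + 1) → ℝ := Fin.snoc x 1

/-- the quadratic function `f(x) = (x,1)ᵀ Q (x,1)` on `ℝⁿ` -/
def fv {n : ℕ} (Q : Matrix (Fin (n + 1)) (Fin (n + 1)) ℝ) (x : Fin n → ℝ) : ℝ := qf Q (hm x)

/-- the set `S` of the solutions of the strict inequalities `f_i < 0` -/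
def SS {n m : ℕ} (Q : Fin m → Matrix (Fin (n + 1)) (Fin (n + 1)) ℝ) : Set (Fin n → ℝ) :=
  {x | ∀ i, fv (Q i) x < 0}

/-- hidden hyperplane convexity -/
def HHC {n m : ℕ} (Q : Fin m → Matrix (Fin (n + 1)) (Fin (n + 1)) ℝ) : Prop :=
  ∀ H : Submodule ℝ (Fin (n + 1) → ℝ), Module.finrank ℝ H = n →
    Convex ℝ ((fun z i => qf (Q i) z) '' (H : Set (Fin (n + 1) → ℝ)) : Set (Fin m → ℝ))

/-- the aggregated matrix -/
def agg {n m : ℕ} (Q : Fin m → Matrix (Fin (n + 1)) (Fin (n + 1)) ℝ) (lam : Fin m → ℝ) :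
    Matrix (Fin (n + 1)) (Fin (n + 1)) ℝ := ∑ i, lam i • Q i

/-- good aggregations: `λ ≥ 0`, `λ ≠ 0`, `Q_λ` has at most one negative eigenvalue (counted with
multiplicity) and `conv(S) ⊆ S_λ`. -/
def Good {n m : ℕ} (Q : Fin m → Matrix (Fin (n + 1)) (Fin (n + 1)) ℝ) (lam : Fin m → ℝ) : Prop :=
  (∀ i, 0 ≤ lam i) ∧ lam ≠ 0 ∧
  (∃ h : (agg Q lam).IsHermitian, ∀ i j, h.eigenvalues i < 0 → h.eigenvalues j < 0 → i = j) ∧
  convexHull ℝ (SS Q) ⊆ {x | fv (agg Q lam) x < 0}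

/-! ### general facts -/

section general
variable {κ : Type*} [Fintype κ]

lemma qf_comb (Q : Matrix κ κ ℝ) (x y : κ → ℝ) (a b : ℝ) :
    qf Q (a • x + b • y) = a ^ 2 * qf Q x + a * b * (x ⬝ᵥ (Q *ᵥ y) + y ⬝ᵥ (Q *ᵥ x)) +
      b ^ 2 * qf Q y := by
  unfold qf
  simp only [Matrix.mulVec_add, Matrix.mulVec_smul, dotProduct_add, add_dotProduct,
    smul_dotProduct, dotProduct_smul, smul_eq_mul]
  ring

lemma qf_smul (Q : Matrix κ κ ℝ) (x : κ → ℝ) (a : ℝ) : qf Q (a • x) = a ^ 2 * qf Q x := by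
  unfold qf
  simp only [Matrix.mulVec_smul, smul_dotProduct, dotProduct_smul, smul_eq_mul]
  ring

lemma qf_rot (Q : Matrix κ κ ℝ) (x y : κ → ℝ) {c s : ℝ} (h : c ^ 2 + s ^ 2 = 1) :
    qf Q (c • x + s • y) + qf Q ((-s) • x + c • y) = qf Q x + qf Q y := by
  rw [qf_comb, qf_comb]
  linear_combination (qf Q x + qf Q y) * h

lemma qf_sum {m : ℕ} (Q : Fin m → Matrix κ κ ℝ) (lam : Fin m → ℝ) (z : κ → ℝ) :
    qf (∑ i, lam i • Q i) z = ∑ i, lam i * qf (Q i) z := by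
  unfold qf
  rw [Matrix.sum_mulVec, dotProduct_sum]
  exact Finset.sum_congr rfl fun i _ => by rw [Matrix.smul_mulVec, dotProduct_smul, smul_eq_mul]

variable [DecidableEq κ]

lemma qf_spectral {Q : Matrix κ κ ℝ} (h : Q.IsHermitian) :
    ∃ W : Matrix κ κ ℝ, ∀ z, qf Q z = ∑ i, h.eigenvalues i * ((W *ᵥ z) i) ^ 2 := by
  refine ⟨(h.eigenvectorUnitary : Matrix κ κ ℝ)ᴴ, fun z => ?_⟩
  have h1 := h.spectral_theorem
  rw [Unitary.conjStarAlgAut_apply] at h1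
  set W : Matrix κ κ ℝ := (h.eigenvectorUnitary : Matrix κ κ ℝ) with hW
  have h2 : Q = W * diagonal h.eigenvalues * Wᴴ := h1
  have h3 : qf Q z = z ⬝ᵥ ((W * diagonal h.eigenvalues * Wᴴ) *ᵥ z) := by
    unfold qf
    exact congrArg (fun X => z ⬝ᵥ (X *ᵥ z)) h2
  rw [h3, ← Matrix.mulVec_mulVec, ← Matrix.mulVec_mulVec, Matrix.dotProduct_mulVec,
    ← Matrix.mulVec_transpose]
  have h4 : Wᵀ *ᵥ z = Wᴴ *ᵥ z := by
    rw [Matrix.conjTranspose_eq_transpose_of_trivial]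
  rw [h4]
  unfold dotProduct
  refine Finset.sum_congr rfl fun i _ => ?_
  rw [Matrix.mulVec_diagonal]
  ring

/-- A symmetric matrix with at most one negative eigenvalue has no negative definite plane. -/
lemma no_plane {Q : Matrix κ κ ℝ} (h : Q.IsHermitian)
    (h1 : ∀ i j, h.eigenvalues i < 0 → h.eigenvalues j < 0 → i = j) (x y : κ → ℝ)
    (hneg : ∀ a b : ℝ, (a ≠ 0 ∨ b ≠ 0) → qf Q (a • x + b • y) < 0) : False := by
  obtain ⟨W, hW⟩ := qf_spectral h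
  by_cases hi : ∃ i, h.eigenvalues i < 0
  · obtain ⟨i₀, hi₀⟩ := hi
    have key : ∀ a b : ℝ, (a ≠ 0 ∨ b ≠ 0) → (W *ᵥ (a • x + b • y)) i₀ = 0 → False := by
      intro a b hab h0
      have h2 := hneg a b hab
      rw [hW] at h2
      refine absurd h2 (not_lt.2 (Finset.sum_nonneg fun i _ => ?_))
      by_cases hii : i = i₀
      · subst hii; rw [h0]; simp
      · refine mul_nonneg ?_ (sq_nonneg _)
        by_contra hc
        exact hii (h1 i i₀ (lt_of_not_ge hc) hi₀)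
    have hlin : ∀ a b : ℝ, (W *ᵥ (a • x + b • y)) i₀ = a * (W *ᵥ x) i₀ + b * (W *ᵥ y) i₀ := by
      intro a b
      rw [Matrix.mulVec_add, Matrix.mulVec_smul, Matrix.mulVec_smul]
      simp
    by_cases hx : (W *ᵥ x) i₀ = 0
    · exact key 1 0 (Or.inl one_ne_zero) (by rw [hlin, hx]; ring)
    · exact key (-(W *ᵥ y) i₀) ((W *ᵥ x) i₀) (Or.inr hx) (by rw [hlin]; ring)
  · push Not at hi
    have h2 := hneg 1 0 (Or.inl one_ne_zero)
    rw [hW] at h2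
    exact absurd h2 (not_lt.2 (Finset.sum_nonneg fun i _ => mul_nonneg (hi i) (sq_nonneg _)))

end general

/-! ### the example -/

/-- the index bijection -/
def ep : (Fin 6 ⊕ Fin 6) ⊕ Fin 2 ≃ Fin 14 :=
  (Equiv.sumCongr finSumFinEquiv (Equiv.refl _)).trans finSumFinEquiv

/-- coordinates -/
def uu (z : Fin 14 → ℝ) : Fin 6 → ℝ := fun i => z (ep (Sum.inl (Sum.inl i)))
def vv (z : Fin 14 → ℝ) : Fin 6 → ℝ := fun i => z (ep (Sum.inl (Sum.inr i)))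
def yy (z : Fin 14 → ℝ) : ℝ := z (ep (Sum.inr 0))
def ww (z : Fin 14 → ℝ) : ℝ := z (ep (Sum.inr 1))

/-- the matrix of `α |u|² + β |v|² + 2 γ u·v + 2 δ y w` -/
def MM (α β γ δ : ℝ) : Matrix (Fin 14) (Fin 14) ℝ :=
  (Matrix.fromBlocks (Matrix.fromBlocks (α • (1 : Matrix (Fin 6) (Fin 6) ℝ))
    (γ • (1 : Matrix (Fin 6) (Fin 6) ℝ)) (γ • (1 : Matrix (Fin 6) (Fin 6) ℝ))
    (β • (1 : Matrix (Fin 6) (Fin 6) ℝ))) 0 0 !![0, δ; δ, 0]).submatrix ep.symm ep.symm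

lemma MM_symm (α β γ δ : ℝ) : (MM α β γ δ).IsSymm := by
  unfold MM Matrix.IsSymm
  rw [Matrix.transpose_submatrix, Matrix.fromBlocks_transpose, Matrix.fromBlocks_transpose]
  congr 1
  congr 1
  · simp
  · ext i j; fin_cases i <;> fin_cases j <;> rfl

lemma qf_MM (α β γ δ : ℝ) (z : Fin 14 → ℝ) : qf (MM α β γ δ) z =
    α * (uu z ⬝ᵥ uu z) + β * (vv z ⬝ᵥ vv z) + 2 * γ * (uu z ⬝ᵥ vv z) +
      2 * δ * (yy z * ww z) := by
  have h1 : z ∘ ep = Sum.elim (Sum.elim (uu z) (vv z)) ![yy z, ww z] := by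
    funext i
    rcases i with (i | i) | i
    · rfl
    · rfl
    · fin_cases i <;> rfl
  unfold qf MM
  rw [Matrix.submatrix_mulVec_equiv]
  have h2 : ∀ (y : (Fin 6 ⊕ Fin 6) ⊕ Fin 2 → ℝ), z ⬝ᵥ (y ∘ ep.symm) = (z ∘ ep) ⬝ᵥ y := by
    intro y
    rw [dotProduct_comp_equiv_symm]
  rw [h2, Equiv.symm_symm, h1]
  rw [Matrix.fromBlocks_mulVec]
  simp only [Sum.elim_comp_inl, Sum.elim_comp_inr]
  rw [Matrix.fromBlocks_mulVec]
  simp only [Sum.elim_comp_inl, Sum.elim_comp_inr, Matrix.zero_mulVec, add_zero, zero_add,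
    Matrix.smul_mulVec, Matrix.one_mulVec, sumElim_dotProduct_sumElim, dotProduct_add,
    dotProduct_smul, smul_eq_mul]
  rw [dotProduct_comm (vv z) (uu z)]
  simp [Matrix.mulVec, dotProduct, Fin.sum_univ_two]
  ring

end Q170.GA
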