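import Pool.Agent.Q170.GA.Agg

namespace Q170.GA

open Matrix

/-- vector with given coordinates -/
def mk (u v : Fin 6 → ℝ) (y w : ℝ) : Fin 14 → ℝ :=
  (Sum.elim (Sum.elim u v) ![y, w]) ∘ ep.symm

lemma uu_mk (u v : Fin 6 → ℝ) (y w : ℝ) : uu (mk u v y w) = u := by
  funext i; simp [uu, mk]

lemma vv_mk (u v : Fin 6 → ℝ) (y w : ℝ) : vv (mk u v y w) = v := by
  funext i; simp [vv, mk]

lemma yy_mk (u v : Fin 6 → ℝ) (y w : ℝ) : yy (mk u v y w) = y := by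
  simp [yy, mk]

lemma ww_mk (u v : Fin 6 → ℝ) (y w : ℝ) : ww (mk u v y w) = w := by
  simp [ww, mk]

lemma mk_add (u v u' v' : Fin 6 → ℝ) (y w y' w' : ℝ) :
    mk (u + u') (v + v') (y + y') (w + w') = mk u v y w + mk u' v' y' w' := by
  funext i
  obtain ⟨j, rfl⟩ := ep.surjective i
  simp only [mk, Function.comp_apply, Equiv.symm_apply_apply, Pi.add_apply]
  rcases j with (j | j) | j
  · rfl
  · rfl
  · fin_cases j <;> rfl

lemma mk_smul (c : ℝ) (u v : Fin 6 → ℝ) (y w : ℝ) :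
    mk (c • u) (c • v) (c * y) (c * w) = c • mk u v y w := by
  funext i
  obtain ⟨j, rfl⟩ := ep.surjective i
  simp only [mk, Function.comp_apply, Equiv.symm_apply_apply, Pi.smul_apply, smul_eq_mul]
  rcases j with (j | j) | j
  · rfl
  · rfl
  · fin_cases j <;> rfl

lemma uu_add (z z' : Fin 14 → ℝ) : uu (z + z') = uu z + uu z' := rfl
lemma vv_add (z z' : Fin 14 → ℝ) : vv (z + z') = vv z + vv z' := rfl
lemma yy_add (z z' : Fin 14 → ℝ) : yy (z + z') = yy z + yy z' := rfl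
lemma ww_add (z z' : Fin 14 → ℝ) : ww (z + z') = ww z + ww z' := rfl
lemma uu_smul (c : ℝ) (z : Fin 14 → ℝ) : uu (c • z) = c • uu z := rfl
lemma vv_smul (c : ℝ) (z : Fin 14 → ℝ) : vv (c • z) = c • vv z := rfl
lemma yy_smul (c : ℝ) (z : Fin 14 → ℝ) : yy (c • z) = c * yy z := rfl
lemma ww_smul (c : ℝ) (z : Fin 14 → ℝ) : ww (c • z) = c * ww z := rfl

/-- two orthonormal vectors of `ℝ⁶` in the kernel of four functionals -/
lemma two_orth (T : (Fin 6 → ℝ) →ₗ[ℝ] (Fin 4 → ℝ)) :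
    ∃ e e' : Fin 6 → ℝ, T e = 0 ∧ T e' = 0 ∧ e ⬝ᵥ e = 1 ∧ e' ⬝ᵥ e' = 1 ∧ e ⬝ᵥ e' = 0 := by
  set T' : EuclideanSpace ℝ (Fin 6) →ₗ[ℝ] (Fin 4 → ℝ) :=
    T ∘ₗ (WithLp.linearEquiv 2 ℝ (Fin 6 → ℝ)).toLinearMap with hT'
  set K := LinearMap.ker T' with hK
  have h1 : Module.finrank ℝ (LinearMap.range T') + Module.finrank ℝ K =
      Module.finrank ℝ (EuclideanSpace ℝ (Fin 6)) := LinearMap.finrank_range_add_finrank_ker T'
  have h2 : Module.finrank ℝ (LinearMap.range T') ≤ 4 := by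
    have := Submodule.finrank_le (LinearMap.range T')
    simpa using this
  have h3 : Module.finrank ℝ (EuclideanSpace ℝ (Fin 6)) = 6 := by simp
  have h4 : 2 ≤ Module.finrank ℝ K := by omega
  set b := stdOrthonormalBasis ℝ K with hb
  have hin : ∀ x y : EuclideanSpace ℝ (Fin 6), x.ofLp ⬝ᵥ y.ofLp = inner ℝ x y := by
    intro x y
    rw [EuclideanSpace.inner_eq_star_dotProduct, star_trivial, dotProduct_comm]
  have ho := b.orthonormal
  have hT : ∀ k : K, T ((k : EuclideanSpace ℝ (Fin 6)).ofLp) = 0 := fun k => k.2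
  refine ⟨(b ⟨0, by omega⟩ : EuclideanSpace ℝ (Fin 6)).ofLp,
    (b ⟨1, by omega⟩ : EuclideanSpace ℝ (Fin 6)).ofLp, hT _, hT _, ?_, ?_, ?_⟩
  · rw [hin, real_inner_self_eq_norm_sq]
    have := ho.1 ⟨0, by omega⟩
    rw [Submodule.coe_norm] at this
    rw [this]; norm_num
  · rw [hin, real_inner_self_eq_norm_sq]
    have := ho.1 ⟨1, by omega⟩
    rw [Submodule.coe_norm] at this
    rw [this]; norm_num
  · rw [hin, ← Submodule.coe_inner]
    exact ho.2 (by simp)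

lemma cholesky {A B C : ℝ} (hA : 0 ≤ A) (hB : 0 ≤ B) (h : C ^ 2 ≤ A * B) :
    ∃ x y z : ℝ, x ^ 2 = A ∧ x * y = C ∧ y ^ 2 + z ^ 2 = B := by
  rcases hA.eq_or_lt with h0 | h0
  · subst h0
    have hC : C = 0 := by nlinarith [sq_nonneg C]
    exact ⟨0, 0, Real.sqrt B, by norm_num, by rw [hC]; ring, by rw [Real.sq_sqrt hB]; ring⟩
  · have h1 := Real.sqrt_pos.2 h0
    have h2 := Real.sq_sqrt hA
    have h3 : 0 ≤ B - C ^ 2 / A := by
      rw [sub_nonneg, div_le_iff₀ h0]; linarith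
    refine ⟨Real.sqrt A, C / Real.sqrt A, Real.sqrt (B - C ^ 2 / A), h2, ?_, ?_⟩
    · field_simp
    · rw [Real.sq_sqrt h3, div_pow, h2]; ring

lemma sum_point0 (l : (Fin 14 → ℝ) →ₗ[ℝ] ℝ) (p1 p2 : Fin 14 → ℝ) (h1 : l p1 = 0)
    (hw : ww p2 = 0) : ∃ p, l p = 0 ∧
      ∀ α β γ δ, qf (MM α β γ δ) p = qf (MM α β γ δ) p1 + qf (MM α β γ δ) p2 := by
  have hz : mk (0 : Fin 6 → ℝ) 0 0 0 = 0 := by
    have := mk_smul 0 0 0 0 0
    simpa using this
  set T : (Fin 6 → ℝ) →ₗ[ℝ] (Fin 4 → ℝ) :=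
    { toFun := fun x => ![uu p1 ⬝ᵥ x, vv p1 ⬝ᵥ x, l (mk x 0 0 0), l (mk 0 x 0 0)]
      map_add' := by
        intro x y
        have e1 : mk (x + y) (0 : Fin 6 → ℝ) 0 0 = mk x 0 0 0 + mk y 0 0 0 := by
          rw [← mk_add]; simp
        have e2 : mk (0 : Fin 6 → ℝ) (x + y) 0 0 = mk 0 x 0 0 + mk 0 y 0 0 := by
          rw [← mk_add]; simp
        rw [e1, e2, map_add, map_add, dotProduct_add, dotProduct_add]
        funext i
        fin_cases i <;> simp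
      map_smul' := by
        intro c x
        have e1 : mk (c • x) (0 : Fin 6 → ℝ) 0 0 = c • mk x 0 0 0 := by
          rw [← mk_smul]; simp
        have e2 : mk (0 : Fin 6 → ℝ) (c • x) 0 0 = c • mk 0 x 0 0 := by
          rw [← mk_smul]; simp
        rw [e1, e2, map_smul, map_smul, dotProduct_smul, dotProduct_smul]
        funext i
        fin_cases i <;> simp } with hT
  obtain ⟨e, e', he, he', h2, h3, h4⟩ := two_orth T
  have a1 : uu p1 ⬝ᵥ e = 0 := congrFun he 0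
  have a2 : vv p1 ⬝ᵥ e = 0 := congrFun he 1
  have a3 : l (mk e 0 0 0) = 0 := congrFun he 2
  have a4 : l (mk 0 e 0 0) = 0 := congrFun he 3
  have b1 : uu p1 ⬝ᵥ e' = 0 := congrFun he' 0
  have b2 : vv p1 ⬝ᵥ e' = 0 := congrFun he' 1
  have b4 : l (mk 0 e' 0 0) = 0 := congrFun he' 3
  have hA : 0 ≤ uu p2 ⬝ᵥ uu p2 := Finset.sum_nonneg fun i _ => mul_self_nonneg _
  have hB : 0 ≤ vv p2 ⬝ᵥ vv p2 := Finset.sum_nonneg fun i _ => mul_self_nonneg _
  have hC : (uu p2 ⬝ᵥ vv p2) ^ 2 ≤ (uu p2 ⬝ᵥ uu p2) * (vv p2 ⬝ᵥ vv p2) := by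
    have := Finset.sum_mul_sq_le_sq_mul_sq Finset.univ (uu p2) (vv p2)
    simpa only [dotProduct, sq] using this
  obtain ⟨x, y, z, hx, hxy, hyz⟩ := cholesky hA hB hC
  have e5 : mk (x • e) (y • e + z • e') 0 0 =
      x • mk e 0 0 0 + (y • mk 0 e 0 0 + z • mk 0 e' 0 0) := by
    rw [← mk_smul, ← mk_smul, ← mk_smul, ← mk_add, ← mk_add]
    simp
  refine ⟨p1 + mk (x • e) (y • e + z • e') 0 0, ?_, fun α β γ δ => ?_⟩
  · rw [map_add, h1, e5, map_add, map_add, map_smul, map_smul, map_smul, a3, a4, b4]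
    simp
  · rw [qf_MM, qf_MM, qf_MM, uu_add, vv_add, yy_add, ww_add, uu_mk, vv_mk, yy_mk, ww_mk, hw]
    simp only [dotProduct_add, add_dotProduct, dotProduct_smul, smul_dotProduct, smul_eq_mul]
    rw [dotProduct_comm e (uu p1), dotProduct_comm e (vv p1), dotProduct_comm e' (vv p1),
      dotProduct_comm e' e, a1, a2, b1, b2, h2, h3, h4]
    linear_combination α * hx + β * hyz + 2 * γ * hxy

lemma sum_point (l : (Fin 14 → ℝ) →ₗ[ℝ] ℝ) (p1 p2 : Fin 14 → ℝ) (h1 : l p1 = 0)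
    (h2 : l p2 = 0) : ∃ p, l p = 0 ∧
      ∀ α β γ δ, qf (MM α β γ δ) p = qf (MM α β γ δ) p1 + qf (MM α β γ δ) p2 := by
  obtain ⟨c, s, hcs, hw⟩ : ∃ c s : ℝ, c ^ 2 + s ^ 2 = 1 ∧ -s * ww p1 + c * ww p2 = 0 := by
    by_cases h0 : ww p1 ^ 2 + ww p2 ^ 2 = 0
    · have e2 : ww p2 = 0 := by nlinarith [sq_nonneg (ww p1), sq_nonneg (ww p2)]
      exact ⟨1, 0, by norm_num, by rw [e2]; ring⟩
    · have hp : 0 < ww p1 ^ 2 + ww p2 ^ 2 :=
        lt_of_le_of_ne (by positivity) (Ne.symm h0)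
      refine ⟨ww p1 / Real.sqrt (ww p1 ^ 2 + ww p2 ^ 2),
        ww p2 / Real.sqrt (ww p1 ^ 2 + ww p2 ^ 2), ?_, ?_⟩
      · rw [div_pow, div_pow, Real.sq_sqrt hp.le, ← add_div, div_self h0]
      · ring
  obtain ⟨p, hp, hq⟩ := sum_point0 l (c • p1 + s • p2) ((-s) • p1 + c • p2)
    (by rw [map_add, map_smul, map_smul, h1, h2]; simp)
    (by rw [ww_add, ww_smul, ww_smul]; exact hw)
  exact ⟨p, hp, fun α β γ δ => by rw [hq, qf_rot _ _ _ hcs]⟩

/-- the three matrices -/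
noncomputable def QQ : Fin 3 → Matrix (Fin 14) (Fin 14) ℝ :=
  ![MM 4 (-1) 0 (-3 / 2), MM 0 1 1 (-1 / 2), MM 0 1 (-1) (-1 / 2)]

lemma QQ_form (i : Fin 3) : ∃ α β γ δ, QQ i = MM α β γ δ := by
  fin_cases i
  · exact ⟨_, _, _, _, rfl⟩
  · exact ⟨_, _, _, _, rfl⟩
  · exact ⟨_, _, _, _, rfl⟩

theorem QQ_HHC : HHC (n := 13) QQ := by
  intro H hH
  obtain ⟨l, hl, hle⟩ := Submodule.exists_le_ker_of_lt_top H (by
    rw [lt_top_iff_ne_top]
    rintro rfl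
    rw [finrank_top] at hH
    simp at hH)
  have hker : Module.finrank ℝ (LinearMap.ker l) = 13 := by
    have h1 := LinearMap.finrank_range_add_finrank_ker l
    have h2 : LinearMap.range l = ⊤ := LinearMap.range_eq_top.2 (LinearMap.surjective hl)
    have h3 : Module.finrank ℝ (Fin 14 → ℝ) = 14 := by simp
    have h4 : Module.finrank ℝ (Fin (13 + 1) → ℝ) = 14 := h3
    rw [h2, finrank_top, Module.finrank_self, h4] at h1
    omega
  have hHk : H = LinearMap.ker l := Submodule.eq_of_le_of_finrank_eq hle (by rw [hH, hker])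
  subst hHk
  rintro _ ⟨p1, hp1, rfl⟩ _ ⟨p2, hp2, rfl⟩ a b ha hb hab
  have h1 : l (Real.sqrt a • p1) = 0 := by
    rw [map_smul, (show l p1 = 0 from hp1)]; simp
  have h2 : l (Real.sqrt b • p2) = 0 := by
    rw [map_smul, (show l p2 = 0 from hp2)]; simp
  obtain ⟨p, hp, hq⟩ := sum_point l _ _ h1 h2
  refine ⟨p, hp, ?_⟩
  funext i
  obtain ⟨α, β, γ, δ, hi⟩ := QQ_form i
  simp only [Pi.add_apply, Pi.smul_apply, smul_eq_mul, hi]
  rw [hq, qf_smul, qf_smul, Real.sq_sqrt ha, Real.sq_sqrt hb]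

/-! ### values on points -/

lemma hm_ww (x : Fin 13 → ℝ) : ww (hm x) = 1 := by
  unfold ww hm
  exact Fin.snoc_last (α := fun _ => ℝ) 1 x

lemma hm_comb (x y : Fin 13 → ℝ) {a b : ℝ} (h : a + b = 1) :
    hm (a • x + b • y) = a • hm x + b • hm y := by
  unfold hm
  funext i
  refine Fin.lastCases ?_ (fun j => ?_) i
  · simp only [Pi.add_apply, Pi.smul_apply, Fin.snoc_last, smul_eq_mul, mul_one]
    exact h.symm
  · simp

/-- a point with given homogeneous coordinates -/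
lemma exists_hm (z : Fin 14 → ℝ) (hz : ww z = 1) : ∃ x : Fin 13 → ℝ, hm x = z := by
  refine ⟨fun i => z (Fin.castSucc i), ?_⟩
  unfold hm
  funext i
  refine Fin.lastCases ?_ (fun j => ?_) i
  · rw [Fin.snoc_last]; exact hz.symm
  · rw [Fin.snoc_castSucc]

/-- the paraboloid of direction `(s,t)` -/
def PP (s t : ℝ) : Set (Fin 13 → ℝ) :=
  {x | (s • uu (hm x) + t • vv (hm x)) ⬝ᵥ (s • uu (hm x) + t • vv (hm x)) <
    (s ^ 2 + t ^ 2) * yy (hm x)}

lemma PP_convex (s t : ℝ) : Convex ℝ (PP s t) := by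
  intro x hx y hy a b ha hb hab
  unfold PP at hx hy ⊢
  simp only [Set.mem_ofPred_eq] at hx hy ⊢
  rw [hm_comb x y hab, uu_add, vv_add, yy_add, uu_smul, uu_smul, vv_smul, vv_smul, yy_smul,
    yy_smul]
  set p := s • uu (hm x) + t • vv (hm x) with hp
  set q := s • uu (hm y) + t • vv (hm y) with hq
  have e1 : s • (a • uu (hm x) + b • uu (hm y)) + t • (a • vv (hm x) + b • vv (hm y)) =
      a • p + b • q := by
    rw [hp, hq]
    module
  rw [e1]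
  have h1 : 0 ≤ (p - q) ⬝ᵥ (p - q) := Finset.sum_nonneg fun i _ => mul_self_nonneg _
  have h2 : (a • p + b • q) ⬝ᵥ (a • p + b • q) =
      a * (p ⬝ᵥ p) + b * (q ⬝ᵥ q) - a * b * ((p - q) ⬝ᵥ (p - q)) := by
    obtain rfl : b = 1 - a := by linarith
    simp only [dotProduct_add, add_dotProduct, dotProduct_smul, smul_dotProduct, smul_eq_mul,
      sub_dotProduct, dotProduct_sub]
    ring
  rw [h2]
  have h3 : 0 ≤ a * b * ((p - q) ⬝ᵥ (p - q)) := by positivity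
  rcases ha.eq_or_lt with h0 | h0
  · subst h0
    obtain rfl : b = 1 := by linarith
    nlinarith
  · nlinarith [mul_lt_mul_of_pos_left hx h0, mul_le_mul_of_nonneg_left hy.le hb]

lemma fv_QQ (x : Fin 13 → ℝ) :
    fv (QQ 0) x = 4 * (uu (hm x) ⬝ᵥ uu (hm x)) - (vv (hm x) ⬝ᵥ vv (hm x)) - 3 * yy (hm x) ∧
    fv (QQ 1) x = (vv (hm x) ⬝ᵥ vv (hm x)) + 2 * (uu (hm x) ⬝ᵥ vv (hm x)) - yy (hm x) ∧
    fv (QQ 2) x = (vv (hm x) ⬝ᵥ vv (hm x)) - 2 * (uu (hm x) ⬝ᵥ vv (hm x)) - yy (hm x) := by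
  unfold fv
  refine ⟨?_, ?_, ?_⟩
  · change qf (MM 4 (-1) 0 (-3 / 2)) (hm x) = _
    rw [qf_MM, hm_ww]; ring
  · change qf (MM 0 1 1 (-1 / 2)) (hm x) = _
    rw [qf_MM, hm_ww]; ring
  · change qf (MM 0 1 (-1) (-1 / 2)) (hm x) = _
    rw [qf_MM, hm_ww]; ring

lemma SS_sub {s t : ℝ} (h : s ≠ 0 ∨ t ≠ 0) : SS (n := 13) QQ ⊆ PP s t := by
  intro x hx
  have f := fv_QQ x
  have h0 := hx 0
  have h1 := hx 1
  have h2 := hx 2
  rw [f.1] at h0
  rw [f.2.1] at h1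
  rw [f.2.2] at h2
  unfold PP
  simp only [Set.mem_ofPred_eq, dotProduct_add, add_dotProduct, dotProduct_smul, smul_dotProduct,
    smul_eq_mul]
  rw [dotProduct_comm (vv (hm x)) (uu (hm x))]
  set A := uu (hm x) ⬝ᵥ uu (hm x)
  set B := vv (hm x) ⬝ᵥ vv (hm x)
  set C := uu (hm x) ⬝ᵥ vv (hm x)
  set Y := yy (hm x)
  have key : s * (s * A) + t * (s * C) + (s * (t * C) + t * (t * B)) - (s ^ 2 + t ^ 2) * Y =
      s ^ 2 / 4 * (4 * A - B - 3 * Y) + (s / 2 + t) ^ 2 / 2 * (B + 2 * C - Y) +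
        (s / 2 - t) ^ 2 / 2 * (B - 2 * C - Y) := by ring
  have k1 : s ^ 2 / 4 * (4 * A - B - 3 * Y) ≤ 0 :=
    mul_nonpos_of_nonneg_of_nonpos (by positivity) h0.le
  have k2 : (s / 2 + t) ^ 2 / 2 * (B + 2 * C - Y) ≤ 0 :=
    mul_nonpos_of_nonneg_of_nonpos (by positivity) h1.le
  have k3 : (s / 2 - t) ^ 2 / 2 * (B - 2 * C - Y) ≤ 0 :=
    mul_nonpos_of_nonneg_of_nonpos (by positivity) h2.le
  by_cases hs : s = 0
  · have ht : t ≠ 0 := by
      rcases h with h | h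
      · exact absurd hs h
      · exact h
    have k4 : (s / 2 + t) ^ 2 / 2 * (B + 2 * C - Y) < 0 := by
      subst hs
      have hp : 0 < (0 / 2 + t) ^ 2 / 2 := by rw [zero_div, zero_add]; positivity
      exact mul_neg_of_pos_of_neg hp h1
    linarith
  · have k4 : s ^ 2 / 4 * (4 * A - B - 3 * Y) < 0 := mul_neg_of_pos_of_neg (by positivity) h0
    linarith

lemma hull_sub {s t : ℝ} (h : s ≠ 0 ∨ t ≠ 0) : convexHull ℝ (SS (n := 13) QQ) ⊆ PP s t :=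
  convexHull_min (SS_sub h) (PP_convex s t)

lemma SS_nonempty : (SS (n := 13) QQ).Nonempty := by
  obtain ⟨x, hx⟩ := exists_hm (mk 0 0 1 1) (ww_mk _ _ _ _)
  refine ⟨x, fun i => ?_⟩
  have f := fv_QQ x
  rw [hx, uu_mk, vv_mk, yy_mk] at f
  simp only [dotProduct_zero, mul_zero, sub_zero, mul_one, zero_sub, add_zero] at f
  fin_cases i
  · exact f.1.trans_lt (by norm_num)
  · exact f.2.1.trans_lt (by norm_num)
  · exact f.2.2.trans_lt (by norm_num)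

lemma hull_ne_univ : convexHull ℝ (SS (n := 13) QQ) ≠ Set.univ := by
  intro h
  obtain ⟨x, hx⟩ := exists_hm (mk 0 0 (-1) 1) (ww_mk _ _ _ _)
  have h1 : x ∈ PP 1 0 := hull_sub (Or.inl one_ne_zero) (h ▸ Set.mem_univ x)
  unfold PP at h1
  simp only [Set.mem_ofPred_eq, hx, uu_mk, vv_mk, yy_mk] at h1
  norm_num at h1

/-- the first unit vector of `ℝ⁶` -/
def e1 : Fin 6 → ℝ := Pi.single 0 1

lemma e1_dot : e1 ⬝ᵥ e1 = 1 := by simp [e1]

lemma qf_agg (lam : Fin 3 → ℝ) (z : Fin 14 → ℝ) : qf (agg (n := 13) QQ lam) z =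
    4 * lam 0 * (uu z ⬝ᵥ uu z) + (lam 1 + lam 2 - lam 0) * (vv z ⬝ᵥ vv z) +
      2 * (lam 1 - lam 2) * (uu z ⬝ᵥ vv z) - (3 * lam 0 + lam 1 + lam 2) * (yy z * ww z) := by
  unfold agg
  rw [qf_sum, Fin.sum_univ_three]
  change lam 0 * qf (MM 4 (-1) 0 (-3 / 2)) z + lam 1 * qf (MM 0 1 1 (-1 / 2)) z +
    lam 2 * qf (MM 0 1 (-1) (-1 / 2)) z = _
  rw [qf_MM, qf_MM, qf_MM]
  ring

/-- the binary form of `lam` -/
def bf (lam : Fin 3 → ℝ) (s t : ℝ) : ℝ :=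
  4 * lam 0 * s ^ 2 + (lam 1 + lam 2 - lam 0) * t ^ 2 + 2 * (lam 1 - lam 2) * (s * t)

lemma good_psd {lam : Fin 3 → ℝ} (h : Good (n := 13) QQ lam) (s t : ℝ) : 0 ≤ bf lam s t := by
  obtain ⟨h0, hne, ⟨hH, h1⟩, _⟩ := h
  by_contra hc
  push Not at hc
  have hsum : 0 < 3 * lam 0 + lam 1 + lam 2 := by
    have a := h0 0
    have b := h0 1
    have c := h0 2
    rcases (show 0 ≤ 3 * lam 0 + lam 1 + lam 2 by linarith).eq_or_lt with h | h
    · exfalso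
      apply hne
      funext i
      fin_cases i
      · show lam 0 = 0; linarith
      · show lam 1 = 0; linarith
      · show lam 2 = 0; linarith
    · exact h
  refine no_plane hH h1 (mk (s • e1) (t • e1) 0 0) (mk 0 0 1 1) fun a b hab => ?_
  rw [qf_agg, uu_add, vv_add, yy_add, ww_add, uu_smul, uu_smul, vv_smul, vv_smul, yy_smul,
    yy_smul, ww_smul, ww_smul, uu_mk, uu_mk, vv_mk, vv_mk, yy_mk, yy_mk, ww_mk, ww_mk]
  simp only [smul_zero, add_zero, dotProduct_smul, smul_dotProduct, smul_eq_mul, e1_dot, mul_one,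
    mul_zero, zero_add]
  have key : 4 * lam 0 * (a * (s * (a * s))) + (lam 1 + lam 2 - lam 0) * (a * (t * (a * t))) +
      2 * (lam 1 - lam 2) * (a * (s * (a * t))) - (3 * lam 0 + lam 1 + lam 2) * (b * b) =
      a ^ 2 * bf lam s t - (3 * lam 0 + lam 1 + lam 2) * b ^ 2 := by
    unfold bf; ring
  refine lt_of_eq_of_lt ?_ (?_ : a ^ 2 * bf lam s t - (3 * lam 0 + lam 1 + lam 2) * b ^ 2 < 0)
  · rw [← key]; ring
  · rcases hab with ha | hb
    · have : a ^ 2 * bf lam s t < 0 := mul_neg_of_pos_of_neg (by positivity) hc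
      nlinarith [sq_nonneg b]
    · have : 0 < (3 * lam 0 + lam 1 + lam 2) * b ^ 2 := by positivity
      nlinarith [sq_nonneg a]

lemma good_zeros {lam : Fin 3 → ℝ} (h : Good (n := 13) QQ lam) :
    {k : ℕ | bf lam 1 k = 0}.Subsingleton := by
  intro k hk k' hk'
  by_contra hne
  have hne' : (k : ℝ) ≠ k' := by exact_mod_cast hne
  have p := good_psd h
  obtain ⟨h0, hne0, _, _⟩ := h
  simp only [Set.mem_ofPred_eq] at hk hk'
  have m := p 1 (((k : ℝ) + k') / 2)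
  have q := p 0 1
  unfold bf at hk hk' m q
  have hd : 0 < ((k : ℝ) - k') ^ 2 := by
    have := sub_ne_zero.2 hne'
    positivity
  have c0 : lam 1 + lam 2 - lam 0 = 0 := by
    have e : 4 * lam 0 * 1 ^ 2 + (lam 1 + lam 2 - lam 0) * (((k : ℝ) + k') / 2) ^ 2 +
        2 * (lam 1 - lam 2) * (1 * (((k : ℝ) + k') / 2)) =
        -((lam 1 + lam 2 - lam 0) * ((k : ℝ) - k') ^ 2) / 4 := by
      linear_combination hk / 2 + hk' / 2
    rw [e] at m
    have q' : 0 ≤ lam 1 + lam 2 - lam 0 := by nlinarith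
    nlinarith
  have c1 : lam 1 - lam 2 = 0 := by
    have e : (lam 1 - lam 2) * ((k : ℝ) - k') = 0 := by
      linear_combination hk / 2 - hk' / 2 - c0 * ((k : ℝ) ^ 2 - (k' : ℝ) ^ 2) / 2
    exact (mul_eq_zero.1 e).resolve_right (sub_ne_zero.2 hne')
  have c2 : lam 0 = 0 := by
    linear_combination hk / 4 - c0 * (k : ℝ) ^ 2 / 4 - c1 * (k : ℝ) / 2
  apply hne0
  have a := h0 1
  have b := h0 2
  funext i
  fin_cases i
  · exact c2
  · show lam 1 = 0; linarith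
  · show lam 2 = 0; linarith

theorem not_finite : ¬ ∃ (r : ℕ) (lam : Fin r → Fin 3 → ℝ), 1 ≤ r ∧
    (∀ j, Good (n := 13) QQ (lam j)) ∧
    convexHull ℝ (SS (n := 13) QQ) = ⋂ j, {x | fv (agg (n := 13) QQ (lam j)) x < 0} := by
  rintro ⟨r, lam, _, hg, heq⟩
  have hfin : (⋃ j, {k : ℕ | bf (lam j) 1 k = 0}).Finite :=
    Set.finite_iUnion fun j => (good_zeros (hg j)).finite
  obtain ⟨k, hk⟩ := hfin.infinite_compl.nonempty
  simp only [Set.mem_compl_iff, Set.mem_iUnion, Set.mem_ofPred_eq, not_exists] at hk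
  have hpos : ∀ j, 0 < bf (lam j) 1 k := fun j =>
    lt_of_le_of_ne (good_psd (hg j) 1 k) (Ne.symm (hk j))
  obtain ⟨x, hx⟩ := exists_hm (mk ((-(k : ℝ)) • e1) ((1 : ℝ) • e1) (1 + (k : ℝ) ^ 2) 1)
    (ww_mk _ _ _ _)
  have h1 : x ∈ convexHull ℝ (SS (n := 13) QQ) := by
    rw [heq]
    simp only [Set.mem_iInter, Set.mem_ofPred_eq]
    intro j
    unfold fv
    rw [hx, qf_agg, uu_mk, vv_mk, yy_mk, ww_mk]
    simp only [dotProduct_smul, smul_dotProduct, smul_eq_mul, e1_dot, mul_one]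
    have := hpos j
    unfold bf at this
    nlinarith
  have h2 := hull_sub (s := -(k : ℝ)) (t := 1) (Or.inr one_ne_zero) h1
  unfold PP at h2
  simp only [Set.mem_ofPred_eq, hx, uu_mk, vv_mk, yy_mk, dotProduct_add, add_dotProduct,
    dotProduct_smul, smul_dotProduct, smul_eq_mul, e1_dot, mul_one] at h2
  nlinarith

end Q170.GA
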