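import Pool.Agent.Q170.GA.Agg

namespace Q170.GA

open Matrix Filter Topology

section nn
variable {κ : Type*} [Fintype κ]

/-- nonnegative on a hyperplane (or everywhere) -/
def NN1 (Q : Matrix κ κ ℝ) : Prop := ∃ h : κ → ℝ, ∀ x, x ⬝ᵥ h = 0 → 0 ≤ qf Q x

/-- bilinear form -/
def bl (Q : Matrix κ κ ℝ) (x y : κ → ℝ) : ℝ := x ⬝ᵥ (Q *ᵥ y)

lemma bl_self (Q : Matrix κ κ ℝ) (x : κ → ℝ) : bl Q x x = qf Q x := rfl

lemma bl_symm {Q : Matrix κ κ ℝ} (h : Q.IsSymm) (x y : κ → ℝ) : bl Q x y = bl Q y x := by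
  unfold bl
  rw [Matrix.dotProduct_mulVec, ← Matrix.mulVec_transpose, h.eq, dotProduct_comm]

lemma qf_comb' {Q : Matrix κ κ ℝ} (h : Q.IsSymm) (x y : κ → ℝ) (a b : ℝ) :
    qf Q (a • x + b • y) = a ^ 2 * qf Q x + 2 * (a * b) * bl Q x y + b ^ 2 * qf Q y := by
  rw [qf_comb]
  have := bl_symm h x y
  unfold bl at this ⊢
  rw [← this]; ring

lemma qf_add_mat (Q R : Matrix κ κ ℝ) (x : κ → ℝ) : qf (Q + R) x = qf Q x + qf R x := by
  unfold qf; rw [Matrix.add_mulVec, dotProduct_add]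

lemma qf_smul_mat (c : ℝ) (Q : Matrix κ κ ℝ) (x : κ → ℝ) : qf (c • Q) x = c * qf Q x := by
  unfold qf; rw [Matrix.smul_mulVec, dotProduct_smul, smul_eq_mul]

lemma bl_add_mat (Q R : Matrix κ κ ℝ) (x y : κ → ℝ) : bl (Q + R) x y = bl Q x y + bl R x y := by
  unfold bl; rw [Matrix.add_mulVec, dotProduct_add]

lemma bl_smul_mat (c : ℝ) (Q : Matrix κ κ ℝ) (x y : κ → ℝ) : bl (c • Q) x y = c * bl Q x y := by
  unfold bl; rw [Matrix.smul_mulVec, dotProduct_smul, smul_eq_mul]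

lemma qf_zero (Q : Matrix κ κ ℝ) : qf Q 0 = 0 := by unfold qf; simp

lemma NN1.mono {Q R : Matrix κ κ ℝ} (h : NN1 Q) (hR : ∀ x, qf Q x ≤ qf R x) : NN1 R := by
  obtain ⟨v, hv⟩ := h
  exact ⟨v, fun x hx => (hv x hx).trans (hR x)⟩

lemma NN1.smul {Q : Matrix κ κ ℝ} (h : NN1 Q) {c : ℝ} (hc : 0 ≤ c) : NN1 (c • Q) := by
  obtain ⟨v, hv⟩ := h
  exact ⟨v, fun x hx => by rw [qf_smul_mat]; exact mul_nonneg hc (hv x hx)⟩

/-- a nonzero combination orthogonal to `h` -/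
lemma comb_orth (x y h : κ → ℝ) : ∃ a b : ℝ, (a ≠ 0 ∨ b ≠ 0) ∧ (a • x + b • y) ⬝ᵥ h = 0 := by
  by_cases hx : x ⬝ᵥ h = 0
  · exact ⟨1, 0, Or.inl one_ne_zero, by simp [hx]⟩
  · refine ⟨-(y ⬝ᵥ h), x ⬝ᵥ h, Or.inr hx, ?_⟩
    rw [add_dotProduct, smul_dotProduct, smul_dotProduct, smul_eq_mul, smul_eq_mul]
    ring

/-- reverse Cauchy-Schwarz inequality -/
lemma rev_cs {Q : Matrix κ κ ℝ} (hs : Q.IsSymm) (h : NN1 Q) {x y : κ → ℝ} (hx : qf Q x < 0)
    (_hy : qf Q y < 0) : qf Q x * qf Q y ≤ bl Q x y ^ 2 := by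
  obtain ⟨v, hv⟩ := h
  by_contra hc
  push Not at hc
  obtain ⟨a, b, hab, ho⟩ := comb_orth x y v
  have h1 := hv _ ho
  rw [qf_comb' hs] at h1
  have h2 : qf Q x * (a ^ 2 * qf Q x + 2 * (a * b) * bl Q x y + b ^ 2 * qf Q y) =
      (a * qf Q x + b * bl Q x y) ^ 2 + b ^ 2 * (qf Q x * qf Q y - bl Q x y ^ 2) := by ring
  have h3 : qf Q x * (a ^ 2 * qf Q x + 2 * (a * b) * bl Q x y + b ^ 2 * qf Q y) ≤ 0 :=
    mul_nonpos_of_nonpos_of_nonneg hx.le h1
  by_cases hb : b = 0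
  · have ha : a ≠ 0 := by
      rcases hab with h | h
      · exact h
      · exact absurd hb h
    subst hb
    have : 0 < a ^ 2 := by positivity
    nlinarith
  · have h4 : 0 < b ^ 2 * (qf Q x * qf Q y - bl Q x y ^ 2) :=
      mul_pos (by positivity) (by linarith)
    nlinarith [sq_nonneg (a * qf Q x + b * bl Q x y)]

lemma bl_ne_zero {Q : Matrix κ κ ℝ} (hs : Q.IsSymm) (h : NN1 Q) {x y : κ → ℝ} (hx : qf Q x < 0)
    (hy : qf Q y < 0) : bl Q x y ≠ 0 := by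
  intro h0
  have := rev_cs hs h hx hy
  rw [h0] at this
  nlinarith [mul_pos_of_neg_of_neg hx hy]

variable [DecidableEq κ]

lemma spectral' {Q : Matrix κ κ ℝ} (h : Q.IsHermitian) :
    ∃ W : Matrix κ κ ℝ, W * Wᵀ = 1 ∧ Q = Wᵀ * diagonal h.eigenvalues * W := by
  refine ⟨(h.eigenvectorUnitary : Matrix κ κ ℝ)ᵀ, ?_, ?_⟩
  · rw [Matrix.transpose_transpose, ← Matrix.conjTranspose_eq_transpose_of_trivial]
    exact Unitary.coe_star_mul_self h.eigenvectorUnitary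
  · have h1 := h.spectral_theorem
    rw [Unitary.conjStarAlgAut_apply] at h1
    rw [Matrix.transpose_transpose, ← Matrix.conjTranspose_eq_transpose_of_trivial]
    exact h1

lemma qf_diag {Q W : Matrix κ κ ℝ} {d : κ → ℝ} (h : Q = Wᵀ * diagonal d * W) (z : κ → ℝ) :
    qf Q z = ∑ i, d i * ((W *ᵥ z) i) ^ 2 := by
  unfold qf
  rw [h, ← Matrix.mulVec_mulVec, ← Matrix.mulVec_mulVec, Matrix.dotProduct_mulVec,
    ← Matrix.mulVec_transpose, Matrix.transpose_transpose]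
  unfold dotProduct
  refine Finset.sum_congr rfl fun i _ => ?_
  rw [Matrix.mulVec_diagonal]
  ring

/-- At most one negative eigenvalue: there is a hyperplane on which the form is nonnegative and its
zeros are in the kernel. -/
lemma nn_of_eig {Q : Matrix κ κ ℝ} (h : Q.IsHermitian)
    (h1 : ∀ i j, h.eigenvalues i < 0 → h.eigenvalues j < 0 → i = j) :
    ∃ v : κ → ℝ, (∀ x, x ⬝ᵥ v = 0 → 0 ≤ qf Q x) ∧
      (∀ x, x ⬝ᵥ v = 0 → qf Q x = 0 → Q *ᵥ x = 0) := by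
  obtain ⟨W, hW1, hW⟩ := spectral' h
  obtain ⟨v, hv⟩ : ∃ v : κ → ℝ, ∀ x, x ⬝ᵥ v = 0 → ∀ i, 0 ≤ h.eigenvalues i ∨ (W *ᵥ x) i = 0 := by
    by_cases hi : ∃ i, h.eigenvalues i < 0
    · obtain ⟨i₀, hi₀⟩ := hi
      refine ⟨W i₀, fun x hx i => ?_⟩
      by_cases hii : i = i₀
      · right
        subst hii
        unfold Matrix.mulVec
        rw [dotProduct_comm]
        exact hx
      · left
        by_contra hc
        exact hii (h1 i i₀ (lt_of_not_ge hc) hi₀)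
    · push Not at hi
      exact ⟨0, fun x _ i => Or.inl (hi i)⟩
  have key : ∀ x, x ⬝ᵥ v = 0 → ∀ i, 0 ≤ h.eigenvalues i * ((W *ᵥ x) i) ^ 2 := by
    intro x hx i
    rcases hv x hx i with h2 | h2
    · exact mul_nonneg h2 (sq_nonneg _)
    · rw [h2]; simp
  refine ⟨v, fun x hx => ?_, fun x hx h0 => ?_⟩
  · rw [qf_diag hW]
    exact Finset.sum_nonneg fun i _ => key x hx i
  · rw [qf_diag hW] at h0
    have h2 := (Finset.sum_eq_zero_iff_of_nonneg fun i _ => key x hx i).1 h0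
    have h3 : diagonal h.eigenvalues *ᵥ (W *ᵥ x) = 0 := by
      funext i
      rw [Matrix.mulVec_diagonal]
      have h4 := h2 i (Finset.mem_univ i)
      rcases mul_eq_zero.1 h4 with h5 | h5
      · rw [h5]; simp
      · rw [pow_eq_zero_iff two_ne_zero] at h5
        rw [h5]; simp
    have h4 : Q *ᵥ x = Wᵀ *ᵥ (diagonal h.eigenvalues *ᵥ (W *ᵥ x)) := by
      rw [Matrix.mulVec_mulVec, Matrix.mulVec_mulVec, ← hW]
    rw [h4, h3, Matrix.mulVec_zero]

lemma NN1_of_eig {Q : Matrix κ κ ℝ} (h : Q.IsHermitian)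
    (h1 : ∀ i j, h.eigenvalues i < 0 → h.eigenvalues j < 0 → i = j) : NN1 Q := by
  obtain ⟨v, hv, _⟩ := nn_of_eig h h1
  exact ⟨v, hv⟩

lemma eig_of_NN1 {Q : Matrix κ κ ℝ} (h : Q.IsHermitian) (h1 : NN1 Q) :
    ∀ i j, h.eigenvalues i < 0 → h.eigenvalues j < 0 → i = j := by
  intro i j hi hj
  by_contra hij
  obtain ⟨W, hW1, hW⟩ := spectral' h
  obtain ⟨v, hv⟩ := h1
  obtain ⟨a, b, hab, ho⟩ := comb_orth (Wᵀ *ᵥ Pi.single i 1) (Wᵀ *ᵥ Pi.single j 1) v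
  have h2 := hv _ ho
  rw [qf_diag hW] at h2
  have h3 : W *ᵥ (a • (Wᵀ *ᵥ Pi.single i 1) + b • (Wᵀ *ᵥ Pi.single j 1)) =
      a • Pi.single i 1 + b • Pi.single j 1 := by
    rw [Matrix.mulVec_add, Matrix.mulVec_smul, Matrix.mulVec_smul, Matrix.mulVec_mulVec,
      Matrix.mulVec_mulVec, hW1, Matrix.one_mulVec, Matrix.one_mulVec]
  rw [h3] at h2
  have h4 : ∑ k, h.eigenvalues k * ((a • (Pi.single i 1 : κ → ℝ) +
      b • (Pi.single j 1 : κ → ℝ)) k) ^ 2 =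
      h.eigenvalues i * a ^ 2 + h.eigenvalues j * b ^ 2 := by
    rw [Finset.sum_eq_add i j hij]
    · simp [hij, Ne.symm hij]
    · intro k _ hk
      simp [hk.1, hk.2]
    · intro hh; exact absurd (Finset.mem_univ _) hh
    · intro hh; exact absurd (Finset.mem_univ _) hh
  rw [h4] at h2
  rcases hab with ha | hb
  · have : h.eigenvalues i * a ^ 2 < 0 := mul_neg_of_neg_of_pos hi (by positivity)
    nlinarith [sq_nonneg b]
  · have : h.eigenvalues j * b ^ 2 < 0 := mul_neg_of_neg_of_pos hj (by positivity)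
    nlinarith [sq_nonneg a]

lemma nn_strong {Q : Matrix κ κ ℝ} (hs : Q.IsSymm) (h1 : NN1 Q) :
    ∃ v : κ → ℝ, (∀ x, x ⬝ᵥ v = 0 → 0 ≤ qf Q x) ∧
      (∀ x, x ⬝ᵥ v = 0 → qf Q x = 0 → Q *ᵥ x = 0) := by
  have hH : Q.IsHermitian := by
    unfold Matrix.IsHermitian
    rw [Matrix.conjTranspose_eq_transpose_of_trivial]
    exact hs.eq
  exact nn_of_eig hH (eig_of_NN1 hH h1)

end nn

/-! ### the jump lemma -/

section jump
variable {N : ℕ}

lemma qf_cont (Q : Matrix (Fin N) (Fin N) ℝ) : Continuous (qf Q) := by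
  unfold qf
  exact continuous_id.dotProduct (Continuous.matrix_mulVec continuous_const continuous_id)

lemma sphere_compact : IsCompact {x : Fin N → ℝ | x ⬝ᵥ x = 1} := by
  refine IsCompact.of_isClosed_subset (isCompact_Icc (a := fun _ => (-1 : ℝ)) (b := fun _ => 1)) ?_ ?_
  · exact isClosed_eq (continuous_id.dotProduct continuous_id) continuous_const
  · intro x hx
    have h1 : ∀ i, x i * x i ≤ 1 := by
      intro i
      have hx' : ∑ i, x i * x i = 1 := hx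
      rw [← hx']
      exact Finset.single_le_sum (f := fun i => x i * x i) (fun j _ => mul_self_nonneg _)
        (Finset.mem_univ i)
    rw [Set.mem_Icc, Pi.le_def, Pi.le_def]
    constructor
    · intro i; nlinarith [h1 i]
    · intro i; nlinarith [h1 i]

lemma dot_self_pos {x : Fin N → ℝ} (h : x ≠ 0) : 0 < x ⬝ᵥ x := by
  obtain ⟨i, hi⟩ := Function.ne_iff.1 h
  refine Finset.sum_pos' (fun j _ => mul_self_nonneg _) ⟨i, Finset.mem_univ _, ?_⟩
  exact mul_self_pos.2 hi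

/-- normalisation -/
lemma exists_unit {x : Fin N → ℝ} (h : x ≠ 0) : ∃ c : ℝ, 0 < c ∧ (c • x) ⬝ᵥ (c • x) = 1 := by
  have hp := dot_self_pos h
  refine ⟨1 / Real.sqrt (x ⬝ᵥ x), by positivity, ?_⟩
  rw [smul_dotProduct, dotProduct_smul, smul_eq_mul, smul_eq_mul]
  have := Real.mul_self_sqrt hp.le
  field_simp
  nlinarith

lemma NN1_iff_unit [NeZero N] (Q : Matrix (Fin N) (Fin N) ℝ) : NN1 Q ↔
    ∃ h : Fin N → ℝ, h ⬝ᵥ h = 1 ∧ ∀ x, 0 ≤ qf Q (x - (x ⬝ᵥ h) • h) := by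
  constructor
  · rintro ⟨v, hv⟩
    have key : ∀ h : Fin N → ℝ, h ⬝ᵥ h = 1 → (∀ x, x ⬝ᵥ h = 0 → 0 ≤ qf Q x) →
        ∃ h : Fin N → ℝ, h ⬝ᵥ h = 1 ∧ ∀ x, 0 ≤ qf Q (x - (x ⬝ᵥ h) • h) := by
      intro h h1 h2
      refine ⟨h, h1, fun x => h2 _ ?_⟩
      rw [sub_dotProduct, smul_dotProduct, h1, smul_eq_mul, mul_one, sub_self]
    by_cases h0 : v = 0
    · subst h0
      refine key (Pi.single 0 1) (by simp) fun x _ => hv x (by simp)
    · obtain ⟨c, hc, hc1⟩ := exists_unit h0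
      refine key (c • v) hc1 fun x hx => hv x ?_
      rw [dotProduct_smul, smul_eq_mul] at hx
      exact (mul_eq_zero.1 hx).resolve_left hc.ne'
  · rintro ⟨h, h1, h2⟩
    refine ⟨h, fun x hx => ?_⟩
    have := h2 x
    rw [hx, zero_smul, sub_zero] at this
    exact this

lemma jump [NeZero N] {P R : Matrix (Fin N) (Fin N) ℝ} (hP : P.IsSymm) (hR : R.IsSymm)
    {a b : ℝ} (hab : a < b) (ha : NN1 (P + a • R)) (hb : ¬ NN1 (P + b • R)) :
    ∃ s, a ≤ s ∧ s ≤ b ∧ ∃ v : Fin N → ℝ, v ≠ 0 ∧ (P + s • R) *ᵥ v = 0 ∧ qf R v ≤ 0 := by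
  -- the closed set of good parameters
  set C : Set (ℝ × (Fin N → ℝ)) := (Set.Icc a b ×ˢ {x : Fin N → ℝ | x ⬝ᵥ x = 1}) ∩
    ⋂ x : Fin N → ℝ, {q | 0 ≤ qf P (x - (x ⬝ᵥ q.2) • q.2) + q.1 * qf R (x - (x ⬝ᵥ q.2) • q.2)}
    with hC
  have hCc : IsCompact C := by
    refine (isCompact_Icc.prod sphere_compact).inter_right (isClosed_iInter fun x => ?_)
    have h0 : Continuous fun q : ℝ × (Fin N → ℝ) => x ⬝ᵥ q.2 :=
      Continuous.dotProduct continuous_const continuous_snd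
    have h1 : Continuous fun q : ℝ × (Fin N → ℝ) => x - (x ⬝ᵥ q.2) • q.2 :=
      continuous_const.sub (h0.smul continuous_snd)
    exact isClosed_le continuous_const
      (((qf_cont P).comp h1).add (continuous_fst.mul ((qf_cont R).comp h1)))
  have hT : ∀ s, s ∈ Prod.fst '' C ↔ s ∈ Set.Icc a b ∧ NN1 (P + s • R) := by
    intro s
    constructor
    · rintro ⟨⟨s', h⟩, hq, rfl⟩
      refine ⟨hq.1.1, (NN1_iff_unit _).2 ⟨h, hq.1.2, fun x => ?_⟩⟩
      rw [qf_add_mat, qf_smul_mat]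
      exact Set.mem_iInter.1 hq.2 x
    · rintro ⟨h1, h2⟩
      obtain ⟨h, h3, h4⟩ := (NN1_iff_unit _).1 h2
      refine ⟨(s, h), ⟨⟨h1, h3⟩, Set.mem_iInter.2 fun x => ?_⟩, rfl⟩
      have := h4 x
      rw [qf_add_mat, qf_smul_mat] at this
      exact this
  obtain ⟨s, hs, hmax⟩ := (hCc.image continuous_fst).exists_isGreatest
    ⟨a, (hT a).2 ⟨Set.left_mem_Icc.2 hab.le, ha⟩⟩
  obtain ⟨hsI, hsN⟩ := (hT s).1 hs
  have hsb : s < b := by
    rcases hsI.2.eq_or_lt with h | h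
    · exact absurd (h ▸ hsN) hb
    · exact h
  have hsymm : (P + s • R).IsSymm := hP.add (hR.smul s)
  obtain ⟨h, hh1, hh2⟩ := nn_strong hsymm hsN
  -- bad unit vectors for the larger parameters
  have hbad : ∀ n : ℕ, ∃ x : Fin N → ℝ, x ⬝ᵥ x = 1 ∧ x ⬝ᵥ h = 0 ∧
      qf (P + s • R) x + ((b - s) / (n + 1)) * qf R x < 0 := by
    intro n
    have hpos : 0 < (b - s) / ((n : ℝ) + 1) := by
      have : 0 < b - s := by linarith
      positivity
    have hle : (b - s) / ((n : ℝ) + 1) ≤ b - s := by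
      refine div_le_self (by linarith) ?_
      have : (0 : ℝ) ≤ n := by positivity
      linarith
    have hnot : ¬ NN1 (P + (s + (b - s) / (n + 1)) • R) := by
      intro hN
      have := hmax ((hT _).2 ⟨⟨by linarith [hsI.1], by linarith⟩, hN⟩)
      linarith
    have h3 : ¬ ∀ x, x ⬝ᵥ h = 0 → 0 ≤ qf (P + (s + (b - s) / (n + 1)) • R) x :=
      fun H => hnot ⟨h, H⟩
    push Not at h3
    obtain ⟨x, hx, hx2⟩ := h3
    have hx0 : x ≠ 0 := by
      rintro rfl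
      rw [qf_zero] at hx2
      exact lt_irrefl _ hx2
    obtain ⟨c, hc, hc1⟩ := exists_unit hx0
    refine ⟨c • x, hc1, by rw [smul_dotProduct, hx, smul_zero], ?_⟩
    rw [qf_smul, qf_smul, qf_add_mat, qf_smul_mat]
    rw [qf_add_mat, qf_smul_mat] at hx2
    have : c ^ 2 * (qf P x + s * qf R x) + (b - s) / (n + 1) * (c ^ 2 * qf R x) =
        c ^ 2 * (qf P x + (s + (b - s) / (n + 1)) * qf R x) := by ring
    rw [this]
    exact mul_neg_of_pos_of_neg (by positivity) hx2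
  choose x hx1 hx2 hx3 using hbad
  obtain ⟨v, hv, φ, hφ, hlim⟩ := sphere_compact.tendsto_subseq fun n => hx1 n
  have hv1 : v ⬝ᵥ v = 1 := hv
  have hv0 : v ≠ 0 := by
    rintro rfl
    simp at hv1
  have hvh : v ⬝ᵥ h = 0 := by
    have h4 : Tendsto (fun n => x (φ n) ⬝ᵥ h) atTop (𝓝 (v ⬝ᵥ h)) :=
      ((continuous_id.dotProduct continuous_const).tendsto v).comp hlim
    refine tendsto_nhds_unique h4 ?_
    simp only [hx2]
    exact tendsto_const_nhds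
  have hF0 : Tendsto (fun n => qf (P + s • R) (x (φ n))) atTop (𝓝 (qf (P + s • R) v)) :=
    ((qf_cont _).tendsto v).comp hlim
  have hR0 : Tendsto (fun n => qf R (x (φ n))) atTop (𝓝 (qf R v)) :=
    ((qf_cont _).tendsto v).comp hlim
  have hRneg : ∀ n, qf R (x n) ≤ 0 := by
    intro n
    have h5 := hh1 (x n) (hx2 n)
    have h6 := hx3 n
    by_contra hc
    push Not at hc
    have hpos : 0 < (b - s) / ((n : ℝ) + 1) := by
      have : 0 < b - s := by linarith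
      positivity
    nlinarith [mul_pos hpos hc]
  have hRv : qf R v ≤ 0 := le_of_tendsto' hR0 fun n => hRneg _
  have heps : Tendsto (fun n : ℕ => (b - s) / ((φ n : ℝ) + 1)) atTop (𝓝 0) := by
    have h7 : Tendsto (fun n : ℕ => (b - s) / ((n : ℝ) + 1)) atTop (𝓝 0) :=
      tendsto_const_div_atTop_nhds_zero_nat (b - s) |>.comp (tendsto_add_atTop_nat 1) |>.congr
        (fun n => by simp)
    exact h7.comp hφ.tendsto_atTop
  have hFv : qf (P + s • R) v ≤ 0 := by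
    have h8 : Tendsto (fun n => qf (P + s • R) (x (φ n)) +
        (b - s) / ((φ n : ℝ) + 1) * qf R (x (φ n))) atTop
        (𝓝 (qf (P + s • R) v + 0 * qf R v)) := hF0.add (heps.mul hR0)
    have h9 := le_of_tendsto' h8 fun n => (hx3 (φ n)).le
    linarith
  have hF : qf (P + s • R) v = 0 := le_antisymm hFv (hh1 v hvh)
  exact ⟨s, hsI.1, hsI.2, v, hv0, hh2 v hvh hF, hRv⟩

end jump

end Q170.GA
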